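import Pool.Agent.H95.ILV.Targets

/-!
# VPN: norms of the kernels of de la Vallee Poussin (MP_de9001_an)
-/

set_option autoImplicit false

open MeasureTheory AddCircle Filter Topology Pool.Agent.H87.Synth Pool.Agent.H23.Synth
  Pool.Agent.H95.ILV

namespace Pool.Agent.H60.ILV

theorem tent_pos {α l x : ℝ} (hα : 0 ≤ α) (hl : 0 < l) (hx : 0 ≤ x) :
    max 0 (min 1 ((α + l - x) / l)) = max 0 (min 1 ((α + 2 * l - x) / (2 * l))) -
      1 / 2 * (max 0 (1 - |x - (α + l)| / l) + max 0 (1 - |x + (α + l)| / l)) := by
  have e1 : max 0 (1 - |x + (α + l)| / l) = 0 := by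
    refine max_eq_left ?_
    rw [abs_of_nonneg (by linarith), sub_nonpos, le_div_iff₀ hl]
    linarith
  rw [e1, add_zero]
  rcases le_total x α with h1 | h1
  · have e2 : min 1 ((α + l - x) / l) = 1 := by
      refine min_eq_left ?_
      rw [le_div_iff₀ hl]
      linarith
    have e3 : min 1 ((α + 2 * l - x) / (2 * l)) = 1 := by
      refine min_eq_left ?_
      rw [le_div_iff₀ (by linarith)]
      linarith
    have e4 : max 0 (1 - |x - (α + l)| / l) = 0 := by
      refine max_eq_left ?_
      rw [abs_of_nonpos (by linarith), sub_nonpos, le_div_iff₀ hl]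
      linarith
    rw [e2, e3, e4]
    norm_num
  rcases le_total x (α + l) with h2 | h2
  · have e2 : max 0 (min 1 ((α + l - x) / l)) = (α + l - x) / l := by
      rw [min_eq_right (by rw [div_le_iff₀ hl]; linarith)]
      exact max_eq_right (div_nonneg (by linarith) hl.le)
    have e3 : max 0 (min 1 ((α + 2 * l - x) / (2 * l))) = (α + 2 * l - x) / (2 * l) := by
      rw [min_eq_right (by rw [div_le_iff₀ (by linarith)]; linarith)]
      exact max_eq_right (div_nonneg (by linarith) (by linarith))
    have e4 : max 0 (1 - |x - (α + l)| / l) = (x - α) / l := by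
      rw [abs_of_nonpos (by linarith)]
      have : 1 - -(x - (α + l)) / l = (x - α) / l := by
        field_simp
        ring
      rw [this]
      exact max_eq_right (div_nonneg (by linarith) hl.le)
    rw [e2, e3, e4]
    field_simp
    ring
  rcases le_total x (α + 2 * l) with h3 | h3
  · have e2 : max 0 (min 1 ((α + l - x) / l)) = 0 := by
      refine max_eq_left ((min_le_right _ _).trans ?_)
      exact div_nonpos_of_nonpos_of_nonneg (by linarith) hl.le
    have e3 : max 0 (min 1 ((α + 2 * l - x) / (2 * l))) = (α + 2 * l - x) / (2 * l) := by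
      rw [min_eq_right (by rw [div_le_iff₀ (by linarith)]; linarith)]
      exact max_eq_right (div_nonneg (by linarith) (by linarith))
    have e4 : max 0 (1 - |x - (α + l)| / l) = (α + 2 * l - x) / l := by
      rw [abs_of_nonneg (by linarith)]
      have : 1 - (x - (α + l)) / l = (α + 2 * l - x) / l := by
        field_simp
        ring
      rw [this]
      exact max_eq_right (div_nonneg (by linarith) hl.le)
    rw [e2, e3, e4]
    field_simp
    ring
  · have e2 : max 0 (min 1 ((α + l - x) / l)) = 0 := by
      refine max_eq_left ((min_le_right _ _).trans ?_)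
      exact div_nonpos_of_nonpos_of_nonneg (by linarith) hl.le
    have e3 : max 0 (min 1 ((α + 2 * l - x) / (2 * l))) = 0 := by
      refine max_eq_left ((min_le_right _ _).trans ?_)
      exact div_nonpos_of_nonpos_of_nonneg (by linarith) (by linarith)
    have e4 : max 0 (1 - |x - (α + l)| / l) = 0 := by
      refine max_eq_left ?_
      rw [abs_of_nonneg (by linarith), sub_nonpos, le_div_iff₀ hl]
      linarith
    rw [e2, e3, e4]
    norm_num

theorem tent {α l : ℝ} (hα : 0 ≤ α) (hl : 0 < l) (x : ℝ) :
    max 0 (min 1 ((α + l - |x|) / l)) = max 0 (min 1 ((α + 2 * l - |x|) / (2 * l))) -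
      1 / 2 * (max 0 (1 - |x - (α + l)| / l) + max 0 (1 - |x + (α + l)| / l)) := by
  rcases le_total 0 x with h | h
  · rw [abs_of_nonneg h]
    exact tent_pos hα hl h
  · rw [abs_of_nonpos h]
    have h1 := tent_pos hα hl (neg_nonneg.2 h)
    have h2 : |-x - (α + l)| = |x + (α + l)| := by
      rw [← abs_neg]
      congr 1
      ring
    have h3 : |-x + (α + l)| = |x - (α + l)| := by
      rw [← abs_neg]
      congr 1
      ring
    rw [h2, h3] at h1
    rw [h1]
    ring

theorem pf_VPN (h1 : T_MOD) (h2 : T_VPC) : T_VPN := by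
  intro a l k
  induction k generalizing l with
  | zero =>
    intro hl ha
    rw [pow_zero, one_mul] at ha
    have hl0 : (0 : ℝ) < l := by exact_mod_cast hl
    have ha' : (a : ℝ) ≤ l := by exact_mod_cast ha
    unfold VP
    refine (norm_sub_le _ _).trans ?_
    rw [norm_smul, norm_smul, norm_fejerK, norm_fejerK, mul_one, mul_one, norm_div, norm_div,
      Complex.norm_natCast, Complex.norm_natCast, Complex.norm_natCast, ← add_div,
      div_le_iff₀ hl0]
    push_cast
    linarith
  | succ k ih =>
    intro hl ha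
    have hl0 : (0 : ℝ) < l := by exact_mod_cast hl
    have h3 := ih (2 * l) (by omega) (by rw [pow_succ] at ha; linarith)
    obtain ⟨E1, hE1, hE1n⟩ := h1 (fejerK (l - 1)) ((a : ℤ) + l)
    obtain ⟨E2, hE2, hE2n⟩ := h1 (fejerK (l - 1)) (-((a : ℤ) + l))
    rw [norm_fejerK] at hE1n hE2n
    have e : VP a l = VP a (2 * l) - ((1 / 2 : ℂ) • E1 + (1 / 2 : ℂ) • E2) := by
      apply ext_coeff
      intro n
      rw [coeff_sub, coeff_add, coeff_smul, coeff_smul, hE1, hE2, h2 a l n hl,
        h2 a (2 * l) n (by omega), coeff_fejerK, coeff_fejerK]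
      have h4 := tent (Nat.cast_nonneg (α := ℝ) a) hl0 (n : ℝ)
      unfold tz
      have h5 : (((l - 1 : ℕ) : ℝ) + 1) = l := by
        rw [Nat.cast_sub hl]
        push_cast
        ring
      rw [h5]
      push_cast
      have h6 : ((n : ℝ) - -((a : ℝ) + l)) = (n : ℝ) + (a + l) := by ring
      rw [h6]
      have h7 := congrArg (fun r : ℝ => (r : ℂ)) h4
      push_cast at h7
      rw [h7]
      ring
    rw [e]
    refine (norm_sub_le _ _).trans ?_
    have h4 : ‖(1 / 2 : ℂ) • E1 + (1 / 2 : ℂ) • E2‖ ≤ 1 := by
      refine (norm_add_le _ _).trans ?_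
      rw [norm_smul, norm_smul]
      have h5 : ‖(1 / 2 : ℂ)‖ = 1 / 2 := by norm_num
      rw [h5]
      linarith
    push_cast
    linarith

end Pool.Agent.H60.ILV
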